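import Mathlib
import Pool.Agent.X46.LovaszKK

/-!
# The localized clique-counting inequality for uniform hypergraphs

We prove the conjectured inequality of the problem in full: for all integers `t ≥ q > i ≥ 1` and
every `q`-uniform hypergraph `H` with `m` edges, `∑_T s'(T) ≤ m / C(t, q)`, the sum being over
all `t`-cliques `T` of `H`.
-/

namespace Pool.Agent.Results.MP_cab928_co.LocalizedCliqueCount

open Finset Pool.Agent.X46.LKK

/-- The real binomial coefficient `x (x-1) ⋯ (x-k+1) / k!`. -/
noncomputable def realBinom (x : ℝ) (k : ℕ) : ℝ :=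
  (∏ l ∈ range k, (x - (l : ℝ))) / (k.factorial : ℝ)

variable {V : Type*} [Fintype V] [DecidableEq V]

/-- The degree `d(I)`: the number of edges containing the set `I`. -/
def deg (H : Finset (Finset V)) (I : Finset V) : ℕ := (H.filter (fun e => I ⊆ e)).card

/-- `x(I)`: the largest real solution `x` of `d(I) = C(x - i, q - i)`. -/
noncomputable def xSet (q i : ℕ) (H : Finset (Finset V)) (I : Finset V) : ℝ :=
  sSup {x : ℝ | (deg H I : ℝ) = realBinom (x - i) (q - i)}

/-- The `t`-cliques of the `q`-uniform hypergraph `H`: the `t`-sets of vertices all of whose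
`q`-subsets are edges. -/
def tCliques (q t : ℕ) (H : Finset (Finset V)) : Finset (Finset V) :=
  univ.filter (fun T => T.card = t ∧ ∀ S, S ⊆ T → S.card = q → S ∈ H)

/-- `x(T)`: the maximum of `x(I)` over the `i`-subsets `I` of `T`. -/
noncomputable def xClique (q i : ℕ) (H : Finset (Finset V)) (T : Finset V) : ℝ :=
  sSup (xSet q i H '' {I : Finset V | I ⊆ T ∧ I.card = i})

/-- The weight `s'(T) = 1 / C(x(T) - q, t - q)`. -/
noncomputable def weight (q i t : ℕ) (H : Finset (Finset V)) (T : Finset V) : ℝ :=
  1 / realBinom (xClique q i H T - q) (t - q)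

theorem realBinom_eq (x : ℝ) (k : ℕ) : realBinom x k = bin x k := rfl

/-- `x(I)` really is the largest real solution, and it is at least `q - 1`. -/
theorem xSet_isGreatest {q i : ℕ} (hiq : i < q) (H : Finset (Finset V)) (I : Finset V) :
    IsGreatest {x : ℝ | (deg H I : ℝ) = realBinom (x - i) (q - i)} (xSet q i H I) ∧
      (q : ℝ) - 1 ≤ xSet q i H I := by
  obtain ⟨y, hy, hyd⟩ := exists_bin (k := q - i) (by omega) (deg H I : ℝ) (by positivity)
  have hcast : ((q - i : ℕ) : ℝ) = (q : ℝ) - i := by
    rw [Nat.cast_sub hiq.le]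
  have hg : IsGreatest {x : ℝ | (deg H I : ℝ) = realBinom (x - i) (q - i)} (y + i) := by
    constructor
    · show (deg H I : ℝ) = realBinom (y + i - i) (q - i)
      rw [realBinom_eq, add_sub_cancel_right, hyd]
    · intro x hx
      have hx' : (deg H I : ℝ) = bin (x - i) (q - i) := hx
      by_contra hcon
      push Not at hcon
      have := bin_strict (k := q - i) (by omega) hy (show y < x - i by linarith)
      rw [hyd, ← hx'] at this
      exact lt_irrefl _ this
  have he : xSet q i H I = y + i := hg.csSup_eq
  rw [he]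
  refine ⟨hg, ?_⟩
  rw [hcast] at hy
  linarith

/-- `x(T)` really is the maximum of the `x(I)`. -/
theorem xClique_isGreatest {q i t : ℕ} (hit : i ≤ t) (H : Finset (Finset V)) {T : Finset V}
    (hT : T.card = t) :
    IsGreatest (xSet q i H '' {I : Finset V | I ⊆ T ∧ I.card = i}) (xClique q i H T) := by
  have hfin : (xSet q i H '' {I : Finset V | I ⊆ T ∧ I.card = i}).Finite :=
    (Set.toFinite _).image _
  have hne : (xSet q i H '' {I : Finset V | I ⊆ T ∧ I.card = i}).Nonempty := by
    obtain ⟨S, hS1, hS2⟩ := exists_subset_card_eq (s := T) (n := i) (by omega)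
    exact ⟨_, S, ⟨hS1, hS2⟩, rfl⟩
  exact ⟨hne.csSup_mem hfin, fun y hy => le_csSup hfin.bddAbove hy⟩

/-- The link of a set `I`. -/
def setLink (H : Finset (Finset V)) (I : Finset V) : Finset (Finset V) :=
  (H.filter (fun e => I ⊆ e)).image (fun e => e \ I)

omit [Fintype V] in
theorem card_setLink (H : Finset (Finset V)) (I : Finset V) :
    (setLink H I).card = deg H I := by
  unfold setLink deg
  apply card_image_of_injOn
  intro e he f hf hef
  simp only [coe_filter, Set.mem_setOf_eq] at he hf
  have h1 : e \ I ∪ I = f \ I ∪ I := by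
    have : e \ I = f \ I := hef
    rw [this]
  rwa [sdiff_union_of_subset he.2, sdiff_union_of_subset hf.2] at h1

omit [Fintype V] in
theorem card_of_mem_setLink {q i : ℕ} {H : Finset (Finset V)} (hH : ∀ e ∈ H, e.card = q)
    {I : Finset V} (hI : I.card = i) {e : Finset V} (he : e ∈ setLink H I) : e.card = q - i := by
  simp only [setLink, mem_image, mem_filter] at he
  obtain ⟨f, ⟨hf, hIf⟩, rfl⟩ := he
  rw [card_sdiff_of_subset hIf, hH f hf, hI]

theorem local_bound {q i t : ℕ} (hiq : i < q) (hqt : q ≤ t) {H : Finset (Finset V)}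
    (hH : ∀ e ∈ H, e.card = q) {I : Finset V} (hI : I.card = i) :
    ∑ T ∈ (tCliques q t H).filter (fun T => I ⊆ T), weight q i t H T ≤
      (deg H I : ℝ) / ((t - i).choose (q - i) : ℝ) := by
  have hCpos : (0 : ℝ) < ((t - i).choose (q - i) : ℝ) := by
    exact_mod_cast Nat.choose_pos (by omega)
  rcases ((tCliques q t H).filter (fun T => I ⊆ T)).eq_empty_or_nonempty with hemp | hne
  · rw [hemp, sum_empty]; positivity
  obtain ⟨hgr, hx1⟩ := xSet_isGreatest hiq H I
  set x := xSet q i H I with hxdef
  have hxd : (deg H I : ℝ) = bin (x - i) (q - i) := hgr.1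
  have hqi : ((q - i : ℕ) : ℝ) = (q : ℝ) - i := by rw [Nat.cast_sub hiq.le]
  have hti : ((t - i : ℕ) : ℝ) = (t : ℝ) - i := by rw [Nat.cast_sub (by omega)]
  have htq : ((t - q : ℕ) : ℝ) = (t : ℝ) - q := by rw [Nat.cast_sub hqt]
  -- the map to cliques of the link
  have hmap : ∀ T ∈ (tCliques q t H).filter (fun T => I ⊆ T),
      T \ I ∈ cliques (q - i) (t - i) (setLink H I) := by
    intro T hT
    simp only [tCliques, mem_filter, mem_univ, true_and] at hT
    obtain ⟨⟨hTc, hT2⟩, hIT⟩ := hT
    rw [mem_cliques]
    refine ⟨by rw [card_sdiff_of_subset hIT, hTc, hI], fun S hS hSc => ?_⟩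
    have hdis : Disjoint S I := disjoint_of_subset_left hS sdiff_disjoint
    have h1 : S ∪ I ∈ H := by
      apply hT2
      · exact union_subset (hS.trans sdiff_subset) hIT
      · rw [card_union_of_disjoint hdis, hSc, hI]; omega
    simp only [setLink, mem_image, mem_filter]
    refine ⟨S ∪ I, ⟨h1, subset_union_right⟩, ?_⟩
    rw [union_sdiff_right, sdiff_eq_self_of_disjoint hdis]
  have hcard : ((tCliques q t H).filter (fun T => I ⊆ T)).card ≤
      (cliques (q - i) (t - i) (setLink H I)).card := by
    apply card_le_card_of_injOn (fun T => T \ I) hmap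
    intro e he f hf hef
    simp only [coe_filter, Set.mem_setOf_eq] at he hf
    have h1 : e \ I ∪ I = f \ I ∪ I := by
      have : e \ I = f \ I := hef
      rw [this]
    rwa [sdiff_union_of_subset he.2, sdiff_union_of_subset hf.2] at h1
  have hne' : (cliques (q - i) (t - i) (setLink H I)).Nonempty := by
    obtain ⟨T, hT⟩ := hne
    exact ⟨_, hmap T hT⟩
  have hcl : ((setLink H I).card : ℝ) = bin (x - i) (q - i) := by
    rw [card_setLink, hxd]
  have hxqi : ((q - i : ℕ) : ℝ) - 1 ≤ x - i := by rw [hqi]; linarith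
  have hb := clique_bound (by omega : 1 ≤ q - i)
    (fun e he => card_of_mem_setLink hH hI he) hxqi hcl (t - i) (by omega) hne'
  have hxt := clique_le_x (by omega : 1 ≤ q - i) (by omega : q - i ≤ t - i) hxqi hcl hne'
  rw [hti] at hxt
  have hxt' : (t : ℝ) ≤ x := by linarith
  have hmul := bin_mul (x - i) (q - i) (t - q)
  have e1 : q - i + (t - q) = t - i := by omega
  rw [e1, ← hxd, hqi] at hmul
  have e2 : x - i - ((q : ℝ) - i) = x - q := by ring
  rw [e2] at hmul
  have hpos : 0 < bin (x - q) (t - q) := by
    apply bin_pos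
    rw [htq]; linarith
  have hw : ∀ T ∈ (tCliques q t H).filter (fun T => I ⊆ T),
      weight q i t H T ≤ 1 / bin (x - q) (t - q) := by
    intro T hT
    simp only [tCliques, mem_filter, mem_univ, true_and] at hT
    have h1 := (xClique_isGreatest (q := q) (i := i) (by omega) H hT.1.1).2
      ⟨I, ⟨hT.2, hI⟩, rfl⟩
    unfold weight
    rw [realBinom_eq]
    apply one_div_le_one_div_of_le hpos
    apply bin_mono
    · rw [htq]; linarith
    · linarith
  calc ∑ T ∈ (tCliques q t H).filter (fun T => I ⊆ T), weight q i t H T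
      ≤ ∑ T ∈ (tCliques q t H).filter (fun T => I ⊆ T), 1 / bin (x - q) (t - q) :=
        sum_le_sum hw
    _ = (((tCliques q t H).filter (fun T => I ⊆ T)).card : ℝ) * (1 / bin (x - q) (t - q)) := by
        rw [sum_const, nsmul_eq_mul]
    _ ≤ bin (x - i) (t - i) * (1 / bin (x - q) (t - q)) := by
        apply mul_le_mul_of_nonneg_right _ (by positivity)
        refine le_trans ?_ hb
        exact_mod_cast hcard
    _ = (deg H I : ℝ) / ((t - i).choose (q - i) : ℝ) := by
        rw [eq_div_iff hCpos.ne']
        field_simp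
        linarith

/-- **The localized clique-counting inequality.** For all integers `t ≥ q > i ≥ 1` and every
`q`-uniform hypergraph `H`, the sum of the weights `s'(T)` over all `t`-cliques `T` of `H` is at
most `m / C(t, q)`, where `m` is the number of edges of `H`. -/
theorem result : ∀ t q i : ℕ, 1 ≤ i → i < q → q ≤ t →
    ∀ (V : Type*) [Fintype V] [DecidableEq V] (H : Finset (Finset V)),
      (∀ e ∈ H, e.card = q) →
        ∑ T ∈ tCliques q t H, weight q i t H T ≤ (H.card : ℝ) / (t.choose q : ℝ) := by
  intro t q i _ hiq hqt V _ _ H hH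
  have hCt : (0 : ℝ) < (t.choose q : ℝ) := by exact_mod_cast Nat.choose_pos hqt
  have hCq : (0 : ℝ) < (q.choose i : ℝ) := by exact_mod_cast Nat.choose_pos hiq.le
  have hCti : (0 : ℝ) < (t.choose i : ℝ) := by exact_mod_cast Nat.choose_pos (by omega)
  have hCpos : (0 : ℝ) < ((t - i).choose (q - i) : ℝ) := by
    exact_mod_cast Nat.choose_pos (by omega)
  -- double counting
  have h1 : ∑ I ∈ powersetCard i (univ : Finset V),
      ∑ T ∈ (tCliques q t H).filter (fun T => I ⊆ T), weight q i t H T =
      (t.choose i : ℝ) * ∑ T ∈ tCliques q t H, weight q i t H T := by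
    simp_rw [sum_filter]
    rw [sum_comm, mul_sum]
    apply sum_congr rfl
    intro T hT
    simp only [tCliques, mem_filter, mem_univ, true_and] at hT
    rw [← sum_filter, sum_const, nsmul_eq_mul]
    congr 2
    have : (powersetCard i (univ : Finset V)).filter (fun I => I ⊆ T) = powersetCard i T := by
      ext I
      simp only [mem_filter, mem_powersetCard, subset_univ, true_and]
      tauto
    rw [this, card_powersetCard, hT.1]
  have h2 : ∑ I ∈ powersetCard i (univ : Finset V), (deg H I : ℝ) =
      (q.choose i : ℝ) * (H.card : ℝ) := by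
    unfold deg
    simp_rw [card_filter]
    push_cast
    rw [sum_comm]
    rw [sum_congr rfl (g := fun _ => (q.choose i : ℝ))]
    · rw [sum_const, nsmul_eq_mul, mul_comm]
    · intro e he
      have h3 : ∑ I ∈ powersetCard i (univ : Finset V), (if I ⊆ e then (1 : ℝ) else 0) =
          (((powersetCard i (univ : Finset V)).filter (fun I => I ⊆ e)).card : ℝ) := by
        rw [card_filter]; push_cast; rfl
      rw [h3]
      have : (powersetCard i (univ : Finset V)).filter (fun I => I ⊆ e) = powersetCard i e := by
        ext I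
        simp only [mem_filter, mem_powersetCard, subset_univ, true_and]
        tauto
      rw [this, card_powersetCard, hH e he]
  have h3 : (t.choose i : ℝ) * ∑ T ∈ tCliques q t H, weight q i t H T ≤
      (q.choose i : ℝ) * (H.card : ℝ) / ((t - i).choose (q - i) : ℝ) := by
    rw [← h1, ← h2, sum_div]
    apply sum_le_sum
    intro I hI
    exact local_bound hiq hqt hH (mem_powersetCard.1 hI).2
  have h4 : (t.choose q : ℝ) * (q.choose i : ℝ) =
      (t.choose i : ℝ) * ((t - i).choose (q - i) : ℝ) := by
    exact_mod_cast Nat.choose_mul (n := t) hiq.le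
  rw [le_div_iff₀ hCt]
  rw [le_div_iff₀ hCpos] at h3
  have h5 : (q.choose i : ℝ) * ((∑ T ∈ tCliques q t H, weight q i t H T) * (t.choose q : ℝ)) ≤
      (q.choose i : ℝ) * (H.card : ℝ) := by
    calc (q.choose i : ℝ) * ((∑ T ∈ tCliques q t H, weight q i t H T) * (t.choose q : ℝ))
        = (∑ T ∈ tCliques q t H, weight q i t H T) * ((t.choose q : ℝ) * (q.choose i : ℝ)) := by
          ring
      _ = (t.choose i : ℝ) * (∑ T ∈ tCliques q t H, weight q i t H T) *
            ((t - i).choose (q - i) : ℝ) := by rw [h4]; ring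
      _ ≤ _ := h3
  exact le_of_mul_le_mul_left h5 hCq

end Pool.Agent.Results.MP_cab928_co.LocalizedCliqueCount
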